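import Pool.Agent.Q220.Bng.Main

/-!
The bidirectional `k`-neighbour graph on `ℤ^d` percolates as soon as `k ^ 2 ≥ 40 d`, `d ≥ 30`;
in particular it does for `k = d` when `d ≥ 40`.
-/

set_option autoImplicit false

namespace Pool.Agent.Results.MP_e5a0e3_pr.PercolationSqrt

open Pool.Agent.Q220.Bng

/-- For all `d ≥ 30` and all `k ≤ 2 d` with `k ^ 2 ≥ 40 d` (so for all `d ≥ 40` and
`√(40 d) ≤ k ≤ d`), with positive probability the origin lies in an infinite open cluster of the
bidirectional `k`-neighbour graph on `ℤ^d`. -/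
theorem result (d k : ℕ) (hk : k ≤ 2 * d) (hd : 30 ≤ d) (hkd : 40 * d ≤ k ^ 2) :
    0 < theta d k hk :=
  theta_pos hd hk hkd

end Pool.Agent.Results.MP_e5a0e3_pr.PercolationSqrt
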